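import Mathlib
import Pool.Agent.W907.SG.Stmts

/-!
Project SG: STEP2, deleting an edge.
-/

namespace W435.SG

open Pool.Agent.W907.SG Module

section Iso

variable {V F M M' : Type} [Fintype V] [LinearOrder V] [Field F] [AddCommGroup M] [Module F M]
  [AddCommGroup M'] [Module F M']

omit [Fintype V] [LinearOrder V] in
theorem KK_map (G : SimpleGraph V) (ρ : V → M →ₗ[F] M) (ρ' : V → M' →ₗ[F] M') (e : M ≃ₗ[F] M')
    (he : ∀ v m, e (ρ v m) = ρ' v (e m)) (A S : Set V) (i : ℕ) :
    (KK G ρ A S i).map (LinearEquiv.piCongrRight (fun _ : Finset V => e)).toLinearMap =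
      KK G ρ' A S i := by
  ext c
  rw [Submodule.mem_map]
  constructor
  · rintro ⟨d, hd, rfl⟩
    rw [mem_KK] at hd ⊢
    refine ⟨fun T hT => ?_, fun T t ht => ?_⟩
    · show e (d T) = 0
      rw [hd.1 T hT, map_zero]
    · show ρ' t (e (d T)) = - e (d T)
      rw [← he, hd.2 T t ht, map_neg]
  · intro hc
    refine ⟨fun T => e.symm (c T), ?_, ?_⟩
    · rw [mem_KK] at hc ⊢
      refine ⟨fun T hT => ?_, fun T t ht => ?_⟩
      · rw [hc.1 T hT, map_zero]
      · apply e.injective
        rw [he, map_neg, e.apply_symm_apply]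
        exact hc.2 T t ht
    · funext T
      show e (e.symm (c T)) = c T
      rw [e.apply_symm_apply]

theorem bd_map (e : M ≃ₗ[F] M') (c : Finset V → M) :
    bd F ((LinearEquiv.piCongrRight (fun _ : Finset V => e)).toLinearMap c) =
      (LinearEquiv.piCongrRight (fun _ : Finset V => e)).toLinearMap (bd F c) := by
  funext T
  rw [bd_apply]
  show _ = e (bd F c T)
  rw [bd_apply, map_sum]
  refine Finset.sum_congr rfl fun v _ => ?_
  rw [map_zsmul]
  rfl

theorem beta_iso (G : SimpleGraph V) (ρ : V → M →ₗ[F] M) (ρ' : V → M' →ₗ[F] M') (e : M ≃ₗ[F] M')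
    (he : ∀ v m, e (ρ v m) = ρ' v (e m)) (A S : Set V) (i : ℕ) :
    beta G ρ A S i = beta G ρ' A S i := by
  have h1 : (ZZ G ρ A S i).map (LinearEquiv.piCongrRight (fun _ : Finset V => e)).toLinearMap =
      ZZ G ρ' A S i := by
    unfold ZZ
    ext c
    rw [Submodule.mem_map]
    constructor
    · rintro ⟨d, hd, rfl⟩
      rw [Submodule.mem_inf, LinearMap.mem_ker] at hd ⊢
      refine ⟨?_, ?_⟩
      · rw [← KK_map G ρ ρ' e he A S i]
        exact Submodule.mem_map_of_mem hd.1
      · rw [bd_map, hd.2, map_zero]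
    · intro hc
      rw [Submodule.mem_inf, LinearMap.mem_ker, ← KK_map G ρ ρ' e he A S i] at hc
      obtain ⟨⟨d, hd, rfl⟩, h2⟩ := hc
      refine ⟨d, ?_, rfl⟩
      rw [Submodule.mem_inf, LinearMap.mem_ker]
      refine ⟨hd, ?_⟩
      rw [bd_map] at h2
      exact (LinearEquiv.piCongrRight (fun _ : Finset V => e)).injective
        (h2.trans (map_zero _).symm)
  have h2 : (BB G ρ A S i).map (LinearEquiv.piCongrRight (fun _ : Finset V => e)).toLinearMap =
      BB G ρ' A S i := by
    unfold BB
    rw [← KK_map G ρ ρ' e he A S (i + 1), ← Submodule.map_comp, ← Submodule.map_comp]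
    congr 1
    refine LinearMap.ext fun c => ?_
    exact (bd_map e c).symm
  unfold beta
  rw [← h1, ← h2]
  congr 1
  · exact (LinearEquiv.finrank_map_eq
      (LinearEquiv.piCongrRight (fun _ : Finset V => e)) (ZZ G ρ A S i)).symm
  · exact (LinearEquiv.finrank_map_eq
      (LinearEquiv.piCongrRight (fun _ : Finset V => e)) (BB G ρ A S i)).symm

end Iso

theorem iterate_two {X : Type} (f : X → X) (k l : ℕ) (h : ∀ x, f^[3 ^ k] x = x) (x : X) :
    f^[3 ^ (k + l)] x = x := by
  rw [pow_add, Function.iterate_mul]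
  have h1 : f^[3 ^ k] = id := funext h
  rw [h1, Function.iterate_id]
  rfl

theorem step2 (hEDGE : S_EDGE) (hEIG : S_EIG) (hTR : S_TR) (hML : S_ML) : S_STEP2 := by
  classical
  intro V _ G s t i hst hG hL iF iL N
  cases i with
  | zero =>
    obtain ⟨X, iX, nX, P, hP⟩ := hG iF iL N
    refine ⟨X, iX, nX, ⟨P.a, P.inv, fun u v huv x => P.comm u v ?_ x, P.sgn, P.sgn_self,
      P.sgn_other, P.ptype⟩, ?_⟩
    · exact (SimpleGraph.deleteEdges_adj.1 huv).1
    · refine le_trans (Nat.mul_le_mul_left N ?_) hP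
      exact (hEDGE V (ZMod 3) (X → ZMod 3) G (pull (ZMod 3) P.a) s t hst).1
  | succ j =>
    obtain ⟨X1, iX1, nX1, P1, hP1⟩ := hG iF iL (2 * N)
    obtain ⟨L, hLdef⟩ : ∃ L : Set V, L = G.neighborSet s ∩ G.neighborSet t := ⟨_, rfl⟩
    rw [← hLdef] at hL
    let iFU : Fintype ↥L := Fintype.ofFinite _
    obtain ⟨X2, iX2, nX2, P2, hP2⟩ := hL j rfl iFU inferInstance (2 * N)
    obtain ⟨b, hb⟩ : ∃ b : V → X2 → X2,
      b = fun v y => if h : v ∈ L then P2.a ⟨v, h⟩ y else y := ⟨_, rfl⟩
    have hb1 : ∀ (v : V) (h : v ∈ L) y, b v y = P2.a ⟨v, h⟩ y := by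
      intro v h y
      rw [hb]
      exact dif_pos h
    have hb2 : ∀ (v : V) (h : v ∉ L) y, b v y = y := by
      intro v h y
      rw [hb]
      exact dif_neg h
    have hbinv : ∀ v y, b v (b v y) = y := by
      intro v y
      by_cases h : v ∈ L
      · rw [hb1 v h, hb1 v h, P2.inv]
      · rw [hb2 v h, hb2 v h]
    have hbcomm : ∀ u v, G.Adj u v → ∀ y, b u (b v y) = b v (b u y) := by
      intro u v huv y
      by_cases hu : u ∈ L
      · by_cases hv : v ∈ L
        · rw [hb1 u hu, hb1 v hv, hb1 v hv, hb1 u hu]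
          exact P2.comm ⟨u, hu⟩ ⟨v, hv⟩ (by simpa using huv) y
        · rw [hb2 v hv, hb2 v hv]
      · rw [hb2 u hu, hb2 u hu]
    have hbword : ∀ l : List V, ∃ l' : List ↥L, (∀ y, l.foldr b y = l'.foldr P2.a y) ∧
        ∀ χ : ↥L → ℤˣ, (l'.map χ).prod =
          (l.map (fun v => if h : v ∈ L then χ ⟨v, h⟩ else 1)).prod := by
      intro l
      induction l with
      | nil => exact ⟨[], fun _ => rfl, fun _ => rfl⟩
      | cons v l ih =>
        obtain ⟨l', h1, h2⟩ := ih
        by_cases hv : v ∈ L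
        · refine ⟨⟨v, hv⟩ :: l', fun y => ?_, fun χ => ?_⟩
          · rw [List.foldr_cons, List.foldr_cons, h1, hb1 v hv]
          · rw [List.map_cons, List.prod_cons, List.map_cons, List.prod_cons, h2, dif_pos hv]
        · refine ⟨l', fun y => ?_, fun χ => ?_⟩
          · rw [List.foldr_cons, h1, hb2 v hv]
          · rw [List.map_cons, List.prod_cons, h2, dif_neg hv, one_mul]
    have hbp : ∀ l : List V, EvenWord l → ∃ k : ℕ, ∀ x, (fun y => l.foldr b y)^[3 ^ k] x = x := by
      intro l hl
      obtain ⟨l', h1, h2⟩ := hbword l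
      obtain ⟨k, hk⟩ := P2.ptype l' (fun χ => by rw [h2 χ]; exact hl _)
      refine ⟨k, ?_⟩
      have h3 : (fun y => l.foldr b y) = (fun y => l'.foldr P2.a y) := funext h1
      rw [h3]
      exact hk
    obtain ⟨a, ha⟩ : ∃ a : V → X1 × X2 → X1 × X2,
      a = fun v z => (P1.a v z.1, b v z.2) := ⟨_, rfl⟩
    have hainv : ∀ v z, a v (a v z) = z := by
      intro v z
      rw [ha]
      dsimp only
      rw [P1.inv, hbinv]
    have hacomm : ∀ u v, G.Adj u v → ∀ z, a u (a v z) = a v (a u z) := by
      intro u v huv z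
      rw [ha]
      dsimp only
      rw [P1.comm u v huv, hbcomm u v huv]
    have hafold : ∀ (l : List V) z, l.foldr a z = (l.foldr P1.a z.1, l.foldr b z.2) := by
      intro l z
      induction l with
      | nil => rfl
      | cons v l ih =>
        rw [List.foldr_cons, List.foldr_cons, List.foldr_cons, ih, ha]
    have hap : ∀ l : List V, EvenWord l → ∃ k : ℕ, ∀ x, (fun y => l.foldr a y)^[3 ^ k] x = x := by
      intro l hl
      obtain ⟨k1, hk1⟩ := P1.ptype l hl
      obtain ⟨k2, hk2⟩ := hbp l hl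
      refine ⟨k1 + k2, ?_⟩
      have h3 : (fun y => l.foldr a y) =
          Prod.map (fun y => l.foldr P1.a y) (fun y => l.foldr b y) := by
        funext z
        exact hafold l z
      rw [h3]
      intro z
      rw [Prod.map_iterate]
      refine Prod.ext ?_ ?_
      · exact iterate_two _ k1 k2 hk1 z.1
      · show (fun y => l.foldr b y)^[3 ^ (k1 + k2)] z.2 = z.2
        rw [add_comm]
        exact iterate_two _ k2 k1 hk2 z.2
    have h2ne : (2 : ZMod 3) ≠ 0 := by decide
    refine ⟨X1 × X2, inferInstance, inferInstance, ⟨a, hainv, fun u v huv x => hacomm u v ?_ x,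
      fun v z => P1.sgn v z.1, ?_, ?_, hap⟩, ?_⟩
    · exact (SimpleGraph.deleteEdges_adj.1 huv).1
    · intro v z
      rw [ha]
      exact P1.sgn_self v z.1
    · intro u v huv z
      rw [ha]
      exact P1.sgn_other u v huv z.1
    · show N * beta (G.deleteEdges {s(s, t)}) (pull (ZMod 3) a) Set.univ ∅ (j + 1) ≤ _
      have e1 := (hEDGE V (ZMod 3) (X1 × X2 → ZMod 3) G (pull (ZMod 3) a) s t hst).2 j
      rw [← hLdef] at e1
      have e2 : beta G (pull (ZMod 3) a) Set.univ ∅ (j + 1) ≤
          Fintype.card X2 * beta G (pull (ZMod 3) P1.a) Set.univ ∅ (j + 1) := by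
        have := hML V X1 X2 G P1.a P1.sgn b P1.inv P1.comm P1.sgn_self P1.sgn_other hbinv hbcomm
          hbp (j + 1)
        rw [ha]
        exact this
      have hinv : ∀ v (m : X1 × X2 → ZMod 3), pull (ZMod 3) a v (pull (ZMod 3) a v m) = m := by
        intro v m
        funext x
        rw [pull_apply, pull_apply, hainv]
      have hcom : ∀ u v, G.Adj u v → ∀ (m : X1 × X2 → ZMod 3),
          pull (ZMod 3) a u (pull (ZMod 3) a v m) = pull (ZMod 3) a v (pull (ZMod 3) a u m) := by
        intro u v huv m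
        funext x
        rw [pull_apply, pull_apply, pull_apply, pull_apply, hacomm u v huv]
      have hLs : ∀ u ∈ L, G.Adj u s ∧ G.Adj u t := by
        intro u hu
        rw [hLdef] at hu
        exact ⟨(hu.1 : G.Adj s u).symm, (hu.2 : G.Adj t u).symm⟩
      have e3 : beta G (pull (ZMod 3) a) L {s, t} j ≤ beta G (pull (ZMod 3) a) L {t} j := by
        refine hEIG V (ZMod 3) (X1 × X2 → ZMod 3) G (pull (ZMod 3) a) L {t} s h2ne (hinv s) ?_ j
        intro u hu m
        rcases hu with hu | hu
        · exact hcom u s (hLs u hu).1 m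
        · rw [Set.mem_singleton_iff] at hu
          rw [hu]
          exact hcom t s hst.symm m
      have e4 : beta G (pull (ZMod 3) a) L {t} j ≤ beta G (pull (ZMod 3) a) L ∅ j := by
        have h := hEIG V (ZMod 3) (X1 × X2 → ZMod 3) G (pull (ZMod 3) a) L ∅ t h2ne (hinv t) (by
          intro u hu m
          rcases hu with hu | hu
          · exact hcom u t (hLs u hu).2 m
          · exact absurd hu (Set.notMem_empty u)) j
        rw [insert_empty_eq] at h
        exact h
      have e5 : beta G (pull (ZMod 3) a) L ∅ j =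
          beta (G.induce L) (fun u : ↥L => pull (ZMod 3) a u.1) Set.univ ∅ j := by
        have h := hTR ↥L V (ZMod 3) (X1 × X2 → ZMod 3) G (G.induce L) (pull (ZMod 3) a)
          (fun u => u.1) (fun x y hxy => hxy) (fun u u' => Iff.rfl) j
        rw [Subtype.range_coe_subtype, Set.ofPred_mem_eq] at h
        exact h
      have e6 : beta (G.induce L) (fun u : ↥L => pull (ZMod 3) a u.1) Set.univ ∅ j =
          beta (G.induce L) (pull (ZMod 3) (fun (v : ↥L) (z : X2 × X1) =>
            (P2.a v z.1, P1.a v.1 z.2))) Set.univ ∅ j := by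
        refine beta_iso (G.induce L) _ _
          (LinearEquiv.funCongrLeft (ZMod 3) (ZMod 3) (Equiv.prodComm X2 X1)) ?_ _ _ _
        intro v m
        funext z
        show m (a v.1 (z.2, z.1)) = m (P1.a v.1 z.2, P2.a v z.1)
        rw [ha]
        dsimp only
        rw [hb1 v.1 v.2]
      have e7 : beta (G.induce L) (pull (ZMod 3) (fun (v : ↥L) (z : X2 × X1) =>
            (P2.a v z.1, P1.a v.1 z.2))) Set.univ ∅ j ≤
          Fintype.card X1 * beta (G.induce L) (pull (ZMod 3) P2.a) Set.univ ∅ j := by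
        refine hML ↥L X2 X1 (G.induce L) P2.a P2.sgn (fun v y => P1.a v.1 y) P2.inv P2.comm
          P2.sgn_self P2.sgn_other (fun v y => P1.inv v.1 y)
          (fun u v huv y => P1.comm u.1 v.1 huv y) ?_ j
        intro l hl
        obtain ⟨k, hk⟩ := P1.ptype (l.map Subtype.val) (by
          intro χ
          rw [List.map_map]
          exact hl _)
        refine ⟨k, ?_⟩
        have h3 : (fun y => l.foldr (fun (v : ↥L) y => P1.a v.1 y) y) =
            (fun y => (l.map Subtype.val).foldr P1.a y) := by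
          funext y
          rw [List.foldr_map]
        rw [h3]
        exact hk
      rw [Fintype.card_prod]
      have f1 : 2 * N * beta G (pull (ZMod 3) a) Set.univ ∅ (j + 1) ≤
          Fintype.card X1 * Fintype.card X2 := by
        calc 2 * N * beta G (pull (ZMod 3) a) Set.univ ∅ (j + 1)
            ≤ 2 * N * (Fintype.card X2 * beta G (pull (ZMod 3) P1.a) Set.univ ∅ (j + 1)) :=
              Nat.mul_le_mul_left _ e2
          _ = (2 * N * beta G (pull (ZMod 3) P1.a) Set.univ ∅ (j + 1)) * Fintype.card X2 := by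
              ring
          _ ≤ _ := Nat.mul_le_mul_right _ hP1
      have f2 : 2 * N * beta G (pull (ZMod 3) a) L {s, t} j ≤
          Fintype.card X1 * Fintype.card X2 := by
        calc 2 * N * beta G (pull (ZMod 3) a) L {s, t} j
            ≤ 2 * N * (Fintype.card X1 *
                beta (G.induce L) (pull (ZMod 3) P2.a) Set.univ ∅ j) := by
              refine Nat.mul_le_mul_left _ ?_
              calc _ ≤ _ := e3
                _ ≤ _ := e4
                _ = _ := e5
                _ = _ := e6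
                _ ≤ _ := e7
          _ = Fintype.card X1 * (2 * N *
                beta (G.induce L) (pull (ZMod 3) P2.a) Set.univ ∅ j) := by ring
          _ ≤ _ := Nat.mul_le_mul_left _ hP2
      have f3 : N * beta (G.deleteEdges {s(s, t)}) (pull (ZMod 3) a) Set.univ ∅ (j + 1) ≤
          N * (beta G (pull (ZMod 3) a) Set.univ ∅ (j + 1) +
            beta G (pull (ZMod 3) a) L {s, t} j) := Nat.mul_le_mul_left _ e1
      nlinarith [f1, f2, f3]

end W435.SG
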